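import Mathlib
import Pool.Agent.Helper832.GDStmt
import Pool.Agent.Helper832.GDV
import Pool.Agent.Helper832.GDU

set_option autoImplicit false

namespace Pool.Agent.Results.MP_aa5e40_an.Equality

open Pool.Agent.Helper832.GS

/-- The retract theorem: every bimodule is a retract of a bimodule of operators between left
modules. -/
theorem retract_statement : Pool.Agent.Helper832.GD.RetractStatement :=
  fun _ _ _ _ _ _ _ _ l r h1 h2 h3 h4 h5 =>
    Pool.Agent.Helper832.RT.retract l r ⟨h1, h2, h3, h4, h5⟩

/-- For every Banach algebra `A` the left global dimension equals the bidimension. -/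
theorem result (A : Type) [NonUnitalNormedRing A] [NormedSpace ℂ A] [IsScalarTower ℂ A A]
    [SMulCommClass ℂ A A] [CompleteSpace A] : dg A = db A :=
  dg_eq_db retract_statement

end Pool.Agent.Results.MP_aa5e40_an.Equality
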